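import Pool.Agent.Helper965.CN.MainC

set_option autoImplicit false

open scoped TensorProduct Cardinal

namespace Pool.Agent.Results.MP_7f9919_an.NormsBHCalkin

open Pool.Agent.Helper965.CN

/-- For a separable infinite-dimensional complex Hilbert space `H` there are exactly
`2 ^ (2 ^ ℵ₀)` C*-norms on the algebraic tensor product `B(H) ⊗ B(H)`, and exactly `2 ^ (2 ^ ℵ₀)`
C*-norms on the algebraic tensor product `B(H) ⊗ Q(H)`, where `Q(H)` is the Calkin algebra. -/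
theorem result (H : Type) [NormedAddCommGroup H] [InnerProductSpace ℂ H] [CompleteSpace H]
    [TopologicalSpace.SeparableSpace H] (hH : ¬ FiniteDimensional ℂ H) :
    #{N : (H →L[ℂ] H) ⊗[ℂ] (H →L[ℂ] H) → ℝ // IsCStarNorm N} = 2 ^ (2 ^ ℵ₀ : Cardinal.{0}) ∧
    #{N : (H →L[ℂ] H) ⊗[ℂ] Calkin H → ℝ // IsCStarNorm N} = 2 ^ (2 ^ ℵ₀ : Cardinal.{0}) := by
  rw [Cardinal.two_power_aleph0]
  exact ⟨card_BB hH, card_BQ hH⟩

end Pool.Agent.Results.MP_7f9919_an.NormsBHCalkin
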